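import Pool.Agent.Helper33.KV.GoalsF3
import Pool.Agent.Helper98.KV.FB
import Pool.Agent.Helper26.KV.HInfAlg
import Pool.Agent.Helper5.KV.F_AUX

/-! # Packet KV-F3-ZREG (MP_66be51_an): regularity of the correction -/

set_option autoImplicit false

namespace Pool.Agent.Helper67.KV.ZREG

open Real MeasureTheory Set Filter Topology
open Pool.Agent.Helper33.KV Pool.Agent.Helper41.KV
open Pool.Agent.Helper26.KV (HInf_add HInf_sub hinf_congr)
open Pool.Agent.Helper98.KV (smulE dZ_E dV2_E idP LamQE QE)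
open Pool.Agent.Helper61.KV (derE mulPE)
open Pool.Agent.Helper5.KV (memLp_affine memLp_E)

section
variable {t1 t2 : ℝ}

/-- coefficients with a continuous derivative -/
def Cf (t1 t2 : ℝ) (c c' : ℝ → ℝ) : Prop :=
  (∀ t ∈ Icc t1 t2, HasDerivWithinAt c (c' t) (Icc t1 t2) t) ∧ ContinuousOn c' (Icc t1 t2)

theorem Cf.cont {c c' : ℝ → ℝ} (h : Cf t1 t2 c c') : ContinuousOn c (Icc t1 t2) :=
  fun t ht => (h.1 t ht).continuousWithinAt

theorem Cf.mul {c c' d d' : ℝ → ℝ} (h : Cf t1 t2 c c') (h' : Cf t1 t2 d d') :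
    Cf t1 t2 (fun t => c t * d t) (fun t => c' t * d t + c t * d' t) :=
  ⟨fun t ht => (h.1 t ht).mul (h'.1 t ht),
    (h.2.mul h'.cont).add (h.cont.mul h'.2)⟩

theorem Cf.const (k : ℝ) : Cf t1 t2 (fun _ => k) (fun _ => 0) :=
  ⟨fun t _ => hasDerivWithinAt_const t _ k, continuousOn_const⟩

/-- a block -/
noncomputable def B (α : ℝ) (c f : ℝ → ℝ) (t x : ℝ) : ℝ := c t * f ((x - sig α t) / lam α t)

/-- time derivative of a block -/
noncomputable def Bt (α : ℝ) (c c' f : ℝ → ℝ) (t x : ℝ) : ℝ :=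
  B α c' f t x + (B α (fun t => -(c t * (1 / lam α t ^ 3))) (deriv f) t x +
    B α (fun t => -(c t * ((2 * α + 1) * rho α t / lam α t ^ 3))) (fun y => y * deriv f y) t x)

theorem hd_B (α : ℝ) (c : ℝ → ℝ) {f : ℝ → ℝ} (hf : Differentiable ℝ f) (t x : ℝ) :
    HasDerivAt (B α c f t) (B α (fun t => c t * (1 / lam α t)) (deriv f) t x) x := by
  have h1 : HasDerivAt (fun x => (x - sig α t) / lam α t) (1 / lam α t) x :=
    ((hasDerivAt_id x).sub_const _).div_const _
  have h2 := (((hf ((x - sig α t) / lam α t)).hasDerivAt).comp x h1).const_mul (c t)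
  refine h2.congr_deriv ?_
  unfold B
  ring

theorem deriv_B (α : ℝ) (c : ℝ → ℝ) {f : ℝ → ℝ} (hf : Differentiable ℝ f) (t : ℝ) :
    deriv (B α c f t) = B α (fun t => c t * (1 / lam α t)) (deriv f) t :=
  funext fun x => (hd_B α c hf t x).deriv

theorem E_diff {f : ℝ → ℝ} (hf : IsE f) : Differentiable ℝ f := hf.1.differentiable (by simp)

theorem E_iter {f : ℝ → ℝ} (hf : IsE f) (k : ℕ) : IsE (iteratedDeriv k f) := by
  induction k with
  | zero => rw [iteratedDeriv_zero]; exact hf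
  | succ k ih => rw [iteratedDeriv_succ]; exact derE ih

theorem iter_B (α : ℝ) (c : ℝ → ℝ) {f : ℝ → ℝ} (hf : IsE f) (t : ℝ) (k : ℕ) :
    iteratedDeriv k (B α c f t) = B α (fun t => c t * (1 / lam α t) ^ k) (iteratedDeriv k f) t := by
  induction k with
  | zero =>
    funext x
    simp [B]
  | succ k ih =>
    rw [iteratedDeriv_succ, ih, deriv_B α _ (E_diff (E_iter hf k)), iteratedDeriv_succ]
    funext x
    unfold B
    ring

variable (α : ℝ) (hl : ∀ t ∈ Icc t1 t2, 0 < lam α t)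
  (hs : ContinuousOn (sig α) (Icc t1 t2)) (hlc : ContinuousOn (lam α) (Icc t1 t2))

include hl hs hlc in
theorem cont_B {c f : ℝ → ℝ} (hc : ContinuousOn c (Icc t1 t2)) (hf : Continuous f) :
    ContinuousOn (fun p : ℝ × ℝ => B α c f p.1 p.2) (Icc t1 t2 ×ˢ univ) := by
  have m : MapsTo (Prod.fst : ℝ × ℝ → ℝ) (Icc t1 t2 ×ˢ univ) (Icc t1 t2) := fun p hp => hp.1
  have h1 : ContinuousOn (fun p : ℝ × ℝ => c p.1) (Icc t1 t2 ×ˢ univ) :=
    hc.comp continuousOn_fst m
  have h2 : ContinuousOn (fun p : ℝ × ℝ => sig α p.1) (Icc t1 t2 ×ˢ univ) :=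
    hs.comp continuousOn_fst m
  have h3 : ContinuousOn (fun p : ℝ × ℝ => lam α p.1) (Icc t1 t2 ×ˢ univ) :=
    hlc.comp continuousOn_fst m
  have h4 : ContinuousOn (fun p : ℝ × ℝ => (p.2 - sig α p.1) / lam α p.1)
      (Icc t1 t2 ×ˢ univ) :=
    (continuousOn_snd.sub h2).div h3 fun p hp => (hl p.1 hp.1).ne'
  exact h1.mul (hf.comp_continuousOn h4)

theorem mem_B (c : ℝ → ℝ) {f : ℝ → ℝ} (hf : IsE f) {t : ℝ} (ht : 0 < lam α t) :
    MemLp (B α c f t) 2 := by
  have h := (memLp_affine hf.1.continuous (memLp_E hf) (-(sig α t / lam α t))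
    (one_div_pos.2 ht)).const_mul (c t)
  have e : B α c f t = fun x => c t * f (-(sig α t / lam α t) + 1 / lam α t * x) := by
    funext x
    unfold B
    congr 2
    ring
  rw [e]
  exact h

theorem int_B (c f : ℝ → ℝ) {t : ℝ} (ht : 0 < lam α t) :
    (∫ x, B α c f t x ^ 2) = (c t ^ 2 * lam α t) * ∫ y, f y ^ 2 := by
  have e : (fun x => B α c f t x ^ 2) =
      fun x => c t ^ 2 * (f ((x - sig α t) / lam α t) ^ 2) := by
    funext x
    unfold B
    ring
  rw [e, integral_const_mul]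
  have h1 := integral_sub_right_eq_self (μ := volume) (fun x => f (x / lam α t) ^ 2) (sig α t)
  have h2 := Measure.integral_comp_div (fun y => f y ^ 2) (lam α t)
  rw [h1, h2, abs_of_pos ht, smul_eq_mul]
  ring

include hl hs hlc in
theorem hinf_B {c f : ℝ → ℝ} (hc : ContinuousOn c (Icc t1 t2)) (hf : IsE f) :
    HInf (B α c f) t1 t2 := by
  have hck : ∀ k : ℕ, ContinuousOn (fun t => c t * (1 / lam α t) ^ k) (Icc t1 t2) := fun k =>
    hc.mul ((continuousOn_const.div hlc fun t ht => (hl t ht).ne').pow k)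
  refine ⟨fun t _ => ?_, fun k => ?_, fun k t ht => ?_, fun k => ?_⟩
  · unfold B
    exact contDiff_const.mul (hf.1.comp ((contDiff_id.sub contDiff_const).div_const _))
  · have h := cont_B α hl hs hlc (hck k) (E_iter hf k).1.continuous
    refine h.congr fun p _ => ?_
    simp only
    rw [iter_B α c hf]
  · rw [iter_B α c hf]
    exact mem_B α _ (E_iter hf k) (hl t ht)
  · obtain ⟨C, hC⟩ := isCompact_Icc.exists_bound_of_continuousOn
      (((hck k).pow 2).mul hlc)
    refine ⟨C * ∫ y, iteratedDeriv k f y ^ 2, fun t ht => ?_⟩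
    rw [iter_B α c hf, int_B α _ _ (hl t ht)]
    refine mul_le_mul_of_nonneg_right ?_ (integral_nonneg fun y => sq_nonneg _)
    exact (le_abs_self _).trans (hC t ht)

variable (hsd : ∀ t ∈ Icc t1 t2, HasDerivAt (sig α) (1 / lam α t ^ 2) t)
  (hld : ∀ t ∈ Icc t1 t2, HasDerivAt (lam α) ((2 * α + 1) * rho α t / lam α t ^ 2) t)
  (hrc : ContinuousOn (rho α) (Icc t1 t2))

include hl hsd hld in
theorem td0 {c c' f : ℝ → ℝ} (hc : Cf t1 t2 c c') (hf : IsE f) {t : ℝ} (ht : t ∈ Icc t1 t2)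
    (x : ℝ) : HasDerivWithinAt (fun τ => B α c f τ x) (Bt α c c' f t x) (Icc t1 t2) t := by
  have h1 : HasDerivWithinAt (fun τ => (x - sig α τ) / lam α τ)
      (-(1 / lam α t ^ 3) - (x - sig α t) / lam α t * ((2 * α + 1) * rho α t / lam α t ^ 3))
      (Icc t1 t2) t := by
    have h := (((hsd t ht).const_sub x).div (hld t ht) (hl t ht).ne').hasDerivWithinAt
      (s := Icc t1 t2)
    refine h.congr_deriv ?_
    have := (hl t ht).ne'
    field_simp
  have h2 := (hc.1 t ht).mul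
    (((E_diff hf) ((x - sig α t) / lam α t)).hasDerivAt.comp_hasDerivWithinAt t h1)
  refine h2.congr_deriv ?_
  unfold Bt B
  simp only [Function.comp]
  ring

include hl hld in
theorem cf_il (hlc : ContinuousOn (lam α) (Icc t1 t2)) (hrc : ContinuousOn (rho α) (Icc t1 t2)) :
    Cf t1 t2 (fun t => 1 / lam α t)
    (fun t => -((2 * α + 1) * rho α t / lam α t ^ 2) / lam α t ^ 2) := by
  refine ⟨fun t ht => ?_, ?_⟩
  · have h := ((hld t ht).inv (hl t ht).ne').hasDerivWithinAt (s := Icc t1 t2)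
    have e : (fun t => 1 / lam α t) = (lam α)⁻¹ := by
      funext t
      simp
    rw [e]
    exact h
  · refine ContinuousOn.div (ContinuousOn.neg (ContinuousOn.div (continuousOn_const.mul hrc)
      (hlc.pow 2) fun t ht => ?_)) (hlc.pow 2) fun t ht => ?_
    · exact pow_ne_zero 2 (hl t ht).ne'
    · exact pow_ne_zero 2 (hl t ht).ne'

theorem deriv_Bt {c c' f : ℝ → ℝ} (hf : IsE f) {t : ℝ} (ht : 0 < lam α t) :
    deriv (Bt α c c' f t) = Bt α (fun t => c t * (1 / lam α t))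
      (fun t => c' t * (1 / lam α t) +
        c t * (-((2 * α + 1) * rho α t / lam α t ^ 2) / lam α t ^ 2)) (deriv f) t := by
  funext x
  have hf1 := derE hf
  have hf2 := mulPE idP hf1
  have h1 := hd_B α c' (E_diff hf) t x
  have h2 := hd_B α (fun t => -(c t * (1 / lam α t ^ 3))) (E_diff hf1) t x
  have h3 := hd_B α (fun t => -(c t * ((2 * α + 1) * rho α t / lam α t ^ 3))) (E_diff hf2) t x
  have h4 : HasDerivAt (Bt α c c' f t) _ x := h1.add (h2.add h3)
  rw [h4.deriv]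
  have h5 : deriv (fun y => y * deriv f y) = fun y => deriv f y + y * deriv (deriv f) y := by
    funext y
    have h := (hasDerivAt_id y).mul ((E_diff hf1) y).hasDerivAt
    have h' : HasDerivAt (fun y => y * deriv f y) (1 * deriv f y + id y * deriv (deriv f) y) y := h
    rw [h'.deriv]
    simp
  rw [h5]
  unfold Bt B
  have := ht.ne'
  field_simp
  ring

include hl hsd hld hlc hrc in
theorem td_B (k : ℕ) : ∀ {c c' f : ℝ → ℝ}, Cf t1 t2 c c' → IsE f → ∀ t ∈ Icc t1 t2, ∀ x : ℝ,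
    HasDerivWithinAt (fun τ => iteratedDeriv k (B α c f τ) x)
      (iteratedDeriv k (Bt α c c' f t) x) (Icc t1 t2) t := by
  induction k with
  | zero =>
    intro c c' f hc hf t ht x
    simp only [iteratedDeriv_zero]
    exact td0 α hl hsd hld hc hf ht x
  | succ k ih =>
    intro c c' f hc hf t ht x
    have h := ih (hc.mul (cf_il α hl hld hlc hrc)) (derE hf) t ht x
    simp only [iteratedDeriv_succ']
    rw [deriv_Bt α hf (hl t ht)]
    have e : (fun τ => iteratedDeriv k (deriv (B α c f τ)) x) = fun τ =>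
        iteratedDeriv k (B α (fun t => c t * (1 / lam α t)) (deriv f) τ) x := by
      funext τ
      rw [deriv_B α c (E_diff hf)]
    rw [e]
    exact h

/-- existence of a regular time derivative -/
def Nice (t1 t2 : ℝ) (F : ℝ → ℝ → ℝ) : Prop :=
  ∃ Ft : ℝ → ℝ → ℝ, HInf F t1 t2 ∧ HInf Ft t1 t2 ∧ HasTimeDeriv F Ft t1 t2

include hl hs hsd hld hlc hrc in
theorem nice_B {c c' f : ℝ → ℝ} (hc : Cf t1 t2 c c') (hf : IsE f) : Nice t1 t2 (B α c f) := by
  refine ⟨Bt α c c' f, hinf_B α hl hs hlc hc.cont hf, ?_, ?_⟩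
  · have h1 : ContinuousOn (fun t => -(c t * (1 / lam α t ^ 3))) (Icc t1 t2) :=
      (hc.cont.mul (continuousOn_const.div (hlc.pow 3) fun t ht =>
        pow_ne_zero 3 (hl t ht).ne')).neg
    have h2 : ContinuousOn (fun t => -(c t * ((2 * α + 1) * rho α t / lam α t ^ 3)))
        (Icc t1 t2) :=
      (hc.cont.mul ((continuousOn_const.mul hrc).div (hlc.pow 3) fun t ht =>
        pow_ne_zero 3 (hl t ht).ne')).neg
    exact HInf_add (hinf_B α hl hs hlc hc.2 hf) (HInf_add (hinf_B α hl hs hlc h1 (derE hf))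
      (hinf_B α hl hs hlc h2 (mulPE idP (derE hf))))
  · exact fun k t ht x => td_B α hl hlc hsd hld hrc k hc hf t ht x

theorem Nice.add {F G : ℝ → ℝ → ℝ} (hF : Nice t1 t2 F) (hG : Nice t1 t2 G) :
    Nice t1 t2 (fun t x => F t x + G t x) := by
  obtain ⟨Ft, f1, f2, f3⟩ := hF
  obtain ⟨Gt, g1, g2, g3⟩ := hG
  refine ⟨fun t x => Ft t x + Gt t x, HInf_add f1 g1, HInf_add f2 g2, fun k t ht x => ?_⟩
  have key : ∀ {u v : ℝ → ℝ → ℝ}, HInf u t1 t2 → HInf v t1 t2 → ∀ τ ∈ Icc t1 t2,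
      iteratedDeriv k (fun x => u τ x + v τ x) x =
      iteratedDeriv k (u τ) x + iteratedDeriv k (v τ) x := by
    intro u v hu hv τ hτ
    exact iteratedDeriv_fun_add ((hu.smooth τ hτ).of_le (by exact_mod_cast le_top)).contDiffAt
      ((hv.smooth τ hτ).of_le (by exact_mod_cast le_top)).contDiffAt
  have h := (f3 k t ht x).add (g3 k t ht x)
  rw [key f2 g2 t ht]
  refine h.congr (fun τ hτ => ?_) ?_
  · exact key f1 g1 τ hτ
  · exact key f1 g1 t ht

end

theorem thm_ZREG (_hE : S_ECL1) (hC : S_CURVE) : S_ZREG := by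
  intro α Z Y V2 hα hα1 hZ _hY hV t1 t2 a b a' b' ht1 ht12 ha' hb' hab
  obtain ⟨hcur, -, -⟩ := hC α hα hα1
  have hpos : ∀ t ∈ Icc t1 t2, 0 < t := fun t ht => ht1.trans_le ht.1
  have hl : ∀ t ∈ Icc t1 t2, 0 < lam α t := fun t ht => (hcur t (hpos t ht)).2.1
  have hsd : ∀ t ∈ Icc t1 t2, HasDerivAt (sig α) (1 / lam α t ^ 2) t := fun t ht =>
    (hcur t (hpos t ht)).2.2.2.2.2.1
  have hld : ∀ t ∈ Icc t1 t2, HasDerivAt (lam α) ((2 * α + 1) * rho α t / lam α t ^ 2) t :=
    fun t ht => (hcur t (hpos t ht)).2.2.2.2.2.2.1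
  have hrd : ∀ t ∈ Icc t1 t2, HasDerivAt (rho α) (2 * α * rho α t ^ 2 / lam α t ^ 3) t :=
    fun t ht => (hcur t (hpos t ht)).2.2.2.2.2.2.2
  have hs : ContinuousOn (sig α) (Icc t1 t2) := fun t ht =>
    (hsd t ht).continuousAt.continuousWithinAt
  have hlc : ContinuousOn (lam α) (Icc t1 t2) := fun t ht =>
    (hld t ht).continuousAt.continuousWithinAt
  have hrc : ContinuousOn (rho α) (Icc t1 t2) := fun t ht =>
    (hrd t ht).continuousAt.continuousWithinAt
  -- coefficients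
  have ca : Cf t1 t2 a a' := ⟨fun t ht => (hab t ht).1, ha'⟩
  have cb : Cf t1 t2 b b' := ⟨fun t ht => (hab t ht).2, hb'⟩
  have cr : Cf t1 t2 (rho α) (fun t => 2 * α * rho α t ^ 2 / lam α t ^ 3) :=
    ⟨fun t ht => (hrd t ht).hasDerivWithinAt, (continuousOn_const.mul (hrc.pow 2)).div (hlc.pow 3)
      fun t ht => pow_ne_zero 3 (hl t ht).ne'⟩
  have csq : ContinuousOn (fun t => Real.sqrt (lam α t)) (Icc t1 t2) := hlc.sqrt
  have cs : Cf t1 t2 (fun t => 1 / Real.sqrt (lam α t)) (fun t =>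
      -((2 * α + 1) * rho α t / lam α t ^ 2 / (2 * Real.sqrt (lam α t))) /
        Real.sqrt (lam α t) ^ 2) := by
    refine ⟨fun t ht => ?_, ?_⟩
    · have hne : Real.sqrt (lam α t) ≠ 0 := (Real.sqrt_pos.2 (hl t ht)).ne'
      have h := (((hld t ht).sqrt (hl t ht).ne').inv hne).hasDerivWithinAt (s := Icc t1 t2)
      have e : (fun t => 1 / Real.sqrt (lam α t)) = (fun t => Real.sqrt (lam α t))⁻¹ := by
        funext t
        simp
      rw [e]
      exact h
    · refine ContinuousOn.div (ContinuousOn.neg (ContinuousOn.div (ContinuousOn.div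
        (continuousOn_const.mul hrc) (hlc.pow 2) fun t ht => ?_) (continuousOn_const.mul csq)
        fun t ht => ?_)) (csq.pow 2) fun t ht => ?_
      · exact pow_ne_zero 2 (hl t ht).ne'
      · exact mul_ne_zero two_ne_zero (Real.sqrt_pos.2 (hl t ht)).ne'
      · exact pow_ne_zero 2 (Real.sqrt_pos.2 (hl t ht)).ne'
  have hk : Cf t1 t2 (fun _ => kap α) (fun _ => 0) := Cf.const _
  have nb : ∀ {c c' f : ℝ → ℝ}, Cf t1 t2 c c' → IsE f → Nice t1 t2 (B α c f) :=
    fun hc hf => nice_B α hl hs hlc hsd hld hrc hc hf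
  have n1 := nb (ca.mul cs) LamQE
  have n2 := nb (((ca.mul cr).mul hk).mul cs) (mulPE idP (dZ_E hZ))
  have n3 := nb (cb.mul cs) (derE QE)
  have n4 := nb (((cb.mul cr).mul hk).mul cs) (dZ_E hZ)
  have n5 := nb (((cb.mul cr).mul cr).mul cs) (dV2_E hZ hV)
  have n := (n1.add n2).add ((n3.add n4).add n5)
  obtain ⟨zt, h1, h2, h3⟩ := n
  have e : zOut α Z V2 a b = fun t x =>
      (B α (fun t => a t * (1 / Real.sqrt (lam α t))) (Lam Q) t x +
        B α (fun t => a t * rho α t * kap α * (1 / Real.sqrt (lam α t)))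
          (fun y => y * deriv Z y) t x) +
      ((B α (fun t => b t * (1 / Real.sqrt (lam α t))) (deriv Q) t x +
        B α (fun t => b t * rho α t * kap α * (1 / Real.sqrt (lam α t))) (deriv Z) t x) +
        B α (fun t => b t * rho α t * rho α t * (1 / Real.sqrt (lam α t)))
          (fun y => deriv V2 y - cc α * Z y) t x) := by
    funext t x
    unfold zOut outr tauA tauB B
    ring
  rw [e]
  exact ⟨zt, h1, h2, h3⟩

end Pool.Agent.Helper67.KV.ZREG

namespace Pool.Agent.Helper33.KV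

open Pool.Agent.Helper41.KV

theorem thm_ZREG (hE : S_ECL1) (hC : S_CURVE) : S_ZREG :=
  Pool.Agent.Helper67.KV.ZREG.thm_ZREG hE hC

end Pool.Agent.Helper33.KV
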